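import Mathlib
import Pool.Agent.Y920.EP.Base

set_option autoImplicit false

/-! The group generated by the classes that are not rigid (job EP-GRP, project of helper920). -/

namespace Pool.Agent.Y564.EP

open Pool.Agent.Y920.EP

lemma arith (p N i c : ℕ) (hp : 3 ≤ p) (hN : 1 ≤ N) (hc : c ≤ 38 * p ^ 2 * N ^ 5)
    (h : p ^ i ≤ c + 3 + 4 * (i * (p - 1) * N ^ 2)) : p ^ i ≤ 78 * p ^ 2 * N ^ 5 := by
  by_contra hcon
  push Not at hcon
  have h1 : 1 ≤ N ^ 5 := Nat.one_le_pow _ _ hN
  have h2 : 9 ≤ p ^ 2 := by nlinarith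
  have h3 : 9 ≤ p ^ 2 * N ^ 5 := by nlinarith
  have h4 : i * (p - 1) * N ^ 2 ≤ i * p * N ^ 2 := by
    gcongr
    omega
  have h5 : 39 * (p ^ 2 * N ^ 5) * 2 < p ^ i := by nlinarith
  have h6 : p ^ i < 8 * (i * p * N ^ 2) := by nlinarith
  have h7 : i ^ 2 ≤ p ^ i := by
    have : i ^ 2 ≤ 3 ^ i := by
      clear h h4 h5 h6 hcon
      induction i with
      | zero => simp
      | succ n ih =>
        rcases Nat.lt_or_ge n 2 with hn | hn
        · interval_cases n <;> norm_num
        · rw [pow_succ 3]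
          nlinarith
    exact this.trans (Nat.pow_le_pow_left hp i)
  have h8 : (p ^ i) ^ 2 < 64 * (p ^ 2 * N ^ 4) * i ^ 2 := by
    have : (p ^ i) ^ 2 < (8 * (i * p * N ^ 2)) ^ 2 := Nat.pow_lt_pow_left h6 (by norm_num)
    calc (p ^ i) ^ 2 < (8 * (i * p * N ^ 2)) ^ 2 := this
      _ = 64 * (p ^ 2 * N ^ 4) * i ^ 2 := by ring
  have h9 : (p ^ i) * (p ^ i) < 64 * (p ^ 2 * N ^ 4) * p ^ i := by
    calc (p ^ i) * (p ^ i) = (p ^ i) ^ 2 := by ring
      _ < 64 * (p ^ 2 * N ^ 4) * i ^ 2 := h8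
      _ ≤ 64 * (p ^ 2 * N ^ 4) * p ^ i := by gcongr
  have h10 : p ^ i < 64 * (p ^ 2 * N ^ 4) := lt_of_mul_lt_mul_right h9 (Nat.zero_le _)
  have h11 : N ^ 4 ≤ N ^ 5 := Nat.pow_le_pow_right hN (by norm_num)
  nlinarith [Nat.mul_le_mul_left (p ^ 2) h11]

section
variable {F : Type} [Field F] {A : Type} [CommGroup A] {φ : Fˣ →* A}

/-- STEP 1 -/
lemma step1 (p : ℕ) (hp : p.Prime) (M : ℕ) (ha : ∀ a : A, a ^ p = 1) (X : Finset A)
    (hX : ∀ a ∈ X, ∃ r : Fˣ, φ r = a ∧ En φ M r) :
    ∃ i : ℕ, Nat.card (Subgroup.closure (X : Set A)) = p ^ i ∧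
      ∀ h ∈ Subgroup.closure (X : Set A), ∃ e : Fˣ, φ e = h ∧ En φ (i * (p - 1) * M) e := by
  classical
  induction X using Finset.induction_on with
  | empty =>
    refine ⟨0, ?_, ?_⟩
    · simp
    · intro h hh
      rw [Finset.coe_empty, Subgroup.closure_empty, Subgroup.mem_bot] at hh
      exact ⟨1, by rw [hh, map_one], en_one _⟩
  | insert a X haX ih =>
    obtain ⟨i, hi, hr⟩ := ih fun b hb => hX b (Finset.mem_insert_of_mem hb)
    obtain ⟨r, hra, hrE⟩ := hX a (Finset.mem_insert_self a X)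
    set K := Subgroup.closure (X : Set A) with hK
    have hK' : Subgroup.closure ((insert a X : Finset A) : Set A) = K ⊔ Subgroup.zpowers a := by
      rw [Finset.coe_insert, Set.insert_eq, Subgroup.closure_union, sup_comm,
        Subgroup.zpowers_eq_closure]
    rw [hK']
    by_cases haK : a ∈ K
    · have : K ⊔ Subgroup.zpowers a = K := by
        rw [sup_eq_left, Subgroup.zpowers_le]
        exact haK
      rw [this]
      exact ⟨i, hi, hr⟩
    have hmem : ∀ h ∈ K ⊔ Subgroup.zpowers a, ∃ k ∈ K, ∃ e : Fin p, h = k * a ^ (e : ℕ) := by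
      intro h hh
      rw [Subgroup.mem_sup] at hh
      obtain ⟨k, hk, y, hy, rfl⟩ := hh
      rw [Subgroup.mem_zpowers_iff] at hy
      obtain ⟨n, rfl⟩ := hy
      have hp0 : (p : ℤ) ≠ 0 := by exact_mod_cast hp.ne_zero
      have hnn : 0 ≤ n % p := Int.emod_nonneg _ hp0
      have hlt : n % p < p := Int.emod_lt_of_pos _ (by exact_mod_cast hp.pos)
      refine ⟨k, hk, ⟨(n % p).toNat, by omega⟩, ?_⟩
      have e1 : a ^ n = a ^ (n % p) := by
        conv_lhs => rw [← Int.emod_add_mul_ediv n p]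
        rw [zpow_add, zpow_mul, zpow_natCast, ha, one_zpow, mul_one]
      have e2 : a ^ (n % p) = a ^ ((n % p).toNat : ℕ) := by
        rw [← zpow_natCast, Int.toNat_of_nonneg hnn]
      rw [e1, e2]
    have hKf : Finite K := by
      apply Nat.finite_of_card_ne_zero
      rw [hi]
      exact (pow_pos hp.pos i).ne'
    have hfin : Finite (K ⊔ Subgroup.zpowers a : Subgroup A) := by
      apply Finite.of_surjective (fun x : K × Fin p =>
        (⟨(x.1 : A) * a ^ (x.2 : ℕ), Subgroup.mul_mem_sup x.1.2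
          (Subgroup.npow_mem_zpowers a _)⟩ : (K ⊔ Subgroup.zpowers a : Subgroup A)))
      rintro ⟨h, hh⟩
      obtain ⟨k, hk, e, he⟩ := hmem h hh
      exact ⟨(⟨k, hk⟩, e), Subtype.ext he.symm⟩
    have hpg : IsPGroup p (K ⊔ Subgroup.zpowers a : Subgroup A) := by
      rintro ⟨x, hx⟩
      refine ⟨1, Subtype.ext ?_⟩
      simp [ha]
    haveI := Fact.mk hp
    obtain ⟨j, hj⟩ := (IsPGroup.iff_card.1 hpg)
    have hij : i < j := by
      by_contra hcon
      push Not at hcon
      have h1 : Nat.card (K ⊔ Subgroup.zpowers a : Subgroup A) ≤ Nat.card K := by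
        rw [hi, hj]
        exact Nat.pow_le_pow_right hp.pos hcon
      have h2 := Subgroup.eq_of_le_of_card_ge (H := K) (K := K ⊔ Subgroup.zpowers a) le_sup_left h1
      apply haK
      rw [h2]
      exact Subgroup.mem_sup_right (Subgroup.mem_zpowers a)
    refine ⟨j, hj, fun h hh => ?_⟩
    obtain ⟨k, hk, e, he⟩ := hmem h hh
    obtain ⟨y, hy1, hy2⟩ := hr k hk
    refine ⟨y * r ^ (e : ℕ), ?_, ?_⟩
    · rw [map_mul, map_pow, hy1, hra, he]
    · refine en_mono ?_ (en_mul hy2 (en_pow hrE (e : ℕ)))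
      have h1 : (e : ℕ) ≤ p - 1 := by have := e.2; omega
      calc i * (p - 1) * M + (e : ℕ) * M ≤ i * (p - 1) * M + (p - 1) * M := by gcongr
        _ = (i + 1) * (p - 1) * M := by ring
        _ ≤ j * (p - 1) * M := by gcongr; omega

end

theorem t_GRP : S_GRP := by
  classical
  intro hSU F _ p hp hp2 A _ φ N hN hsurj ha hfin hcard hNR hR
  have hp3 : 3 ≤ p := by
    have := hp.two_le
    omega
  obtain ⟨i, hi, hr⟩ := step1 (φ := φ) p hp (N ^ 2) ha hfin.toFinset
    (fun a h => hNR a (by simpa using h))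
  rw [Set.Finite.coe_toFinset] at hi hr
  set K := Subgroup.closure (NR φ) with hK
  have hKf : Finite K := by
    apply Nat.finite_of_card_ne_zero
    rw [hi]
    exact (pow_pos hp.pos i).ne'
  have hKfin : (K : Set A).Finite := Set.toFinite _
  set m := i * (p - 1) * N ^ 2 with hm
  let G : Finset A := hKfin.toFinset.filter fun g =>
    ∃ w : Fˣ, φ w = g ∧ En φ m w ∧ Ml φ w 1
  have hG : G.card ≤ 2 * m + 1 := by
    refine hSU F A φ m G fun g hg => ?_
    exact (Finset.mem_filter.1 hg).2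
  have hsub : hKfin.toFinset ⊆ ({1} ∪ hfin.toFinset) ∪ (G ∪ G.image fun g => g⁻¹) := by
    intro h hh
    have hhK : h ∈ K := by simpa using hh
    obtain ⟨e, he1, he2⟩ := hr h hhK
    simp only [Finset.mem_union, Finset.mem_singleton, Set.Finite.mem_toFinset]
    by_cases h1 : h = 1
    · exact Or.inl (Or.inl h1)
    by_cases h2 : h ∈ NR φ
    · exact Or.inl (Or.inr h2)
    right
    rcases hR e (by rwa [he1]) (by rwa [he1]) with h3 | h3
    · left
      rw [Finset.mem_filter]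
      exact ⟨hh, e, he1, he2, h3⟩
    · right
      rw [Finset.mem_image]
      refine ⟨h⁻¹, ?_, inv_inv h⟩
      rw [Finset.mem_filter]
      refine ⟨by simpa using hhK, e⁻¹, by rw [map_inv, he1], en_inv he2, h3⟩
  have hcardK : hKfin.toFinset.card = p ^ i := by
    rw [← hi, ← Set.ncard_eq_toFinset_card (K : Set A) hKfin]
    exact (Nat.card_coe_set_eq (K : Set A)).symm
  have hle : p ^ i ≤ (NR φ).ncard + 3 + 4 * m := by
    rw [← hcardK]
    refine (Finset.card_le_card hsub).trans ?_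
    refine (Finset.card_union_le _ _).trans ?_
    have h1 : ({1} ∪ hfin.toFinset : Finset A).card ≤ 1 + (NR φ).ncard := by
      refine (Finset.card_union_le _ _).trans ?_
      rw [Finset.card_singleton, ← Set.ncard_eq_toFinset_card (NR φ) hfin]
    have h2 : (G ∪ G.image fun g => g⁻¹).card ≤ (2 * m + 1) + (2 * m + 1) :=
      (Finset.card_union_le _ _).trans (Nat.add_le_add hG (Finset.card_image_le.trans hG))
    omega
  refine ⟨?_, ?_⟩
  · rw [hi]
    exact (pow_pos hp.pos i).ne'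
  · rw [hi]
    exact arith p N i _ hp3 hN hcard (by rw [← hm]; exact hle)

end Pool.Agent.Y564.EP
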